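import Pool.Agent.Y171.CE.Stm

set_option autoImplicit false

/-! CE-FASTB: existence of good rare elements. -/

namespace Pool.Agent.Y960.CE

open Finset Pool.Agent.Y171.CE

theorem fib {X W Y : Type*} [Fintype X] [Fintype W] [Fintype Y] [DecidableEq W] (e : X ≃ W × Y)
    (S : Finset W) : (univ.filter (fun a => (e a).1 ∈ S)).card * Fintype.card W =
      Fintype.card X * S.card := by
  classical
  have h1 : (univ.filter (fun a => (e a).1 ∈ S)).card = (S ×ˢ (univ : Finset Y)).card := by
    refine Finset.card_equiv e fun a => ?_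
    simp
  rw [h1, card_product, card_univ, Fintype.card_congr e, Fintype.card_prod]
  ring

/-- splitting off one window -/
def splitEquiv {A W : Type*} {j : ℕ} (i : Fin j) :
    (A × (Fin j → W)) ≃ W × (A × ({i' : Fin j // i' ≠ i} → W)) where
  toFun a := (a.2 i, (a.1, fun i' => a.2 i'))
  invFun b := (b.2.1, fun i' => if h : i' = i then b.1 else b.2.2 ⟨i', h⟩)
  left_inv a := by
    refine Prod.ext rfl ?_
    funext i'
    by_cases h : i' = i
    · subst h
      simp
    · simp [h]
  right_inv b := by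
    refine Prod.ext ?_ (Prod.ext rfl ?_)
    · simp
    · funext i'
      simp [i'.2]

theorem bad_count {A W : Type*} [Fintype A] [Fintype W] [Nonempty W] [DecidableEq W] {j : ℕ}
    (S : Finset W) (u v : ℕ) (hS : S.card * u ≤ v * Fintype.card W) :
    (univ.filter (fun a : A × (Fin j → W) => ∃ i, a.2 i ∈ S)).card * u ≤
      j * (v * Fintype.card (A × (Fin j → W))) := by
  classical
  have hW : 0 < Fintype.card W := Fintype.card_pos
  have h1 : ∀ i : Fin j, (univ.filter (fun a : A × (Fin j → W) => a.2 i ∈ S)).card * u ≤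
      v * Fintype.card (A × (Fin j → W)) := by
    intro i
    have h2 := fib (splitEquiv (A := A) (W := W) i) S
    have h3 : (univ.filter (fun a : A × (Fin j → W) => ((splitEquiv (A := A) (W := W) i) a).1 ∈ S)) =
        univ.filter (fun a : A × (Fin j → W) => a.2 i ∈ S) := rfl
    rw [h3] at h2
    refine Nat.le_of_mul_le_mul_right ?_ hW
    calc (univ.filter (fun a : A × (Fin j → W) => a.2 i ∈ S)).card * u * Fintype.card W
        = (univ.filter (fun a : A × (Fin j → W) => a.2 i ∈ S)).card * Fintype.card W * u := by ring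
      _ = Fintype.card (A × (Fin j → W)) * S.card * u := by rw [h2]
      _ = Fintype.card (A × (Fin j → W)) * (S.card * u) := by ring
      _ ≤ Fintype.card (A × (Fin j → W)) * (v * Fintype.card W) := Nat.mul_le_mul_left _ hS
      _ = v * Fintype.card (A × (Fin j → W)) * Fintype.card W := by ring
  have h4 : (univ.filter (fun a : A × (Fin j → W) => ∃ i, a.2 i ∈ S)) ⊆
      (univ : Finset (Fin j)).biUnion (fun i => univ.filter (fun a : A × (Fin j → W) => a.2 i ∈ S)) := by
    intro a ha
    obtain ⟨i, hi⟩ := (mem_filter.1 ha).2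
    exact mem_biUnion.2 ⟨i, mem_univ _, mem_filter.2 ⟨mem_univ _, hi⟩⟩
  calc (univ.filter (fun a : A × (Fin j → W) => ∃ i, a.2 i ∈ S)).card * u
      ≤ (∑ i : Fin j, (univ.filter (fun a : A × (Fin j → W) => a.2 i ∈ S)).card) * u :=
        Nat.mul_le_mul_right _ ((card_le_card h4).trans card_biUnion_le)
    _ = ∑ i : Fin j, (univ.filter (fun a : A × (Fin j → W) => a.2 i ∈ S)).card * u := by
        rw [sum_mul]
    _ ≤ ∑ _i : Fin j, v * Fintype.card (A × (Fin j → W)) := sum_le_sum fun i _ => h1 i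
    _ = j * (v * Fintype.card (A × (Fin j → W))) := by
        rw [sum_const, card_univ, Fintype.card_fin, smul_eq_mul]

theorem fastb : S_NIL → S_TVL → S_QP → S_RGJ → S_BAD → S_FASTB := by
  classical
  intro hNIL hTVL hQP hRGJ hBAD p _ k F _ _ _ _ x hG L I b hI hb hIb hL n j
  have hp : 0 < p := (Fact.out : p.Prime).pos
  have hp' : (0 : ℝ) < p := by exact_mod_cast hp
  haveI : Nonempty (NilT p) := Fintype.card_pos_iff.1 (by rw [hNIL p]; positivity)
  haveI : Nonempty (Fin b) := ⟨⟨0, hb⟩⟩
  have hα : (0 : ℝ) < (Fintype.card ((Fin n → NilT p) ×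
      (Fin j → Fin b × (Fin (7 * b - 1) → NilT p))) : ℝ) := by
    exact_mod_cast Fintype.card_pos
  have key : ∃ g : Fin j → SL2 F,
      ((univ.filter (fun a : (Fin n → NilT p) × (Fin j → Fin b × (Fin (7 * b - 1) → NilT p)) =>
        US L (wl x g a) ≠ ⊤)).card : ℝ) /
        (Fintype.card ((Fin n → NilT p) × (Fin j → Fin b × (Fin (7 * b - 1) → NilT p))) : ℝ) ≤
      j * ((1024 : ℝ) / p) ^ b + (p : ℝ) ^ (2 * k) / (p : ℝ) ^ (I * b * j) := by
    set S : Finset (Fin b × (Fin (7 * b - 1) → NilT p)) :=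
      univ.filter (fun w : Fin b × (Fin (7 * b - 1) → NilT p) =>
        Nat.card (US L (((List.ofFn w.2).drop w.1.1).map (st x))) < p ^ (I * b)) with hSdef
    have hS : S.card * p ^ b ≤ 1024 ^ b * Fintype.card (Fin b × (Fin (7 * b - 1) → NilT p)) :=
      hBAD p k F x hG L I b hI hb hIb hL
    have hbad := bad_count (A := Fin n → NilT p) (j := j) S (p ^ b) (1024 ^ b) hS
    -- the number of bad tuples for a fixed list of steps
    have hM : ∀ a : (Fin n → NilT p) × (Fin j → Fin b × (Fin (7 * b - 1) → NilT p)),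
        ((univ.filter (fun g : Fin j → SL2 F => US L (wl x g a) ≠ ⊤)).card : ℝ) ≤
        (Fintype.card (SL2 F) : ℝ) ^ j * ((p : ℝ) ^ (2 * k) / (p : ℝ) ^ (I * b * j)) +
          (Fintype.card (SL2 F) : ℝ) ^ j * (if ∃ i, a.2 i ∈ S then 1 else 0) := by
      intro a
      split_ifs with ha
      · have h1 : ((univ.filter (fun g : Fin j → SL2 F => US L (wl x g a) ≠ ⊤)).card : ℝ) ≤
            (Fintype.card (SL2 F) : ℝ) ^ j := by
          have h2 := Finset.card_le_univ (univ.filter (fun g : Fin j → SL2 F => US L (wl x g a) ≠ ⊤))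
          rw [Fintype.card_fun, Fintype.card_fin] at h2
          exact_mod_cast h2
        have h3 : (0 : ℝ) ≤ (Fintype.card (SL2 F) : ℝ) ^ j *
            ((p : ℝ) ^ (2 * k) / (p : ℝ) ^ (I * b * j)) := by positivity
        linarith
      · push Not at ha
        have h1 := hRGJ F L j ((List.ofFn a.1).map (st x))
          (fun i => ((List.ofFn (a.2 i).2).take (a.2 i).1.1).map (st x))
          (fun i => ((List.ofFn (a.2 i).2).drop (a.2 i).1.1).map (st x)) (p ^ (I * b))
          (Nat.one_le_pow _ _ hp) (fun i => by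
            have h2 := ha i
            rw [hSdef, mem_filter] at h2
            push Not at h2
            exact h2 (mem_univ _))
        rw [hG.card, ← pow_mul, ← pow_mul] at h1
        have h2 : ((univ.filter (fun g : Fin j → SL2 F => US L (wl x g a) ≠ ⊤)).card : ℝ) *
            (p : ℝ) ^ (I * b * j) ≤ (Fintype.card (SL2 F) : ℝ) ^ j * (p : ℝ) ^ (2 * k) := by
          rw [mul_comm 2 k]
          exact_mod_cast h1
        rw [mul_zero, add_zero, ← mul_div_assoc, le_div_iff₀ (by positivity)]
        exact h2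
    have hsum : ∑ g : Fin j → SL2 F,
        ((univ.filter (fun a : (Fin n → NilT p) × (Fin j → Fin b × (Fin (7 * b - 1) → NilT p)) =>
          US L (wl x g a) ≠ ⊤)).card : ℝ) =
        ∑ a : (Fin n → NilT p) × (Fin j → Fin b × (Fin (7 * b - 1) → NilT p)),
          ((univ.filter (fun g : Fin j → SL2 F => US L (wl x g a) ≠ ⊤)).card : ℝ) := by
      simp only [card_filter, Nat.cast_sum]
      rw [sum_comm]
    have hbad' : ∑ a : (Fin n → NilT p) × (Fin j → Fin b × (Fin (7 * b - 1) → NilT p)),
        (if ∃ i, a.2 i ∈ S then (1 : ℝ) else 0) ≤ j * ((1024 : ℝ) / p) ^ b *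
        (Fintype.card ((Fin n → NilT p) × (Fin j → Fin b × (Fin (7 * b - 1) → NilT p))) : ℝ) := by
      rw [sum_boole, div_pow]
      have h1 : ((univ.filter (fun a : (Fin n → NilT p) × (Fin j → Fin b × (Fin (7 * b - 1) → NilT p)) =>
          ∃ i, a.2 i ∈ S)).card : ℝ) * (p : ℝ) ^ b ≤ j * ((1024 : ℝ) ^ b *
          (Fintype.card ((Fin n → NilT p) × (Fin j → Fin b × (Fin (7 * b - 1) → NilT p))) : ℝ)) := by
        exact_mod_cast hbad
      have h2 : (j : ℝ) * ((1024 : ℝ) ^ b / (p : ℝ) ^ b) *
          (Fintype.card ((Fin n → NilT p) × (Fin j → Fin b × (Fin (7 * b - 1) → NilT p))) : ℝ) =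
          j * ((1024 : ℝ) ^ b *
          (Fintype.card ((Fin n → NilT p) × (Fin j → Fin b × (Fin (7 * b - 1) → NilT p))) : ℝ)) /
          (p : ℝ) ^ b := by ring
      rw [h2, le_div_iff₀ (by positivity)]
      exact h1
    have hne : (univ : Finset (Fin j → SL2 F)).Nonempty := univ_nonempty
    obtain ⟨g, _, hg⟩ := Finset.exists_le_of_sum_le hne (f := fun g : Fin j → SL2 F =>
      ((univ.filter (fun a : (Fin n → NilT p) × (Fin j → Fin b × (Fin (7 * b - 1) → NilT p)) =>
        US L (wl x g a) ≠ ⊤)).card : ℝ) /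
        (Fintype.card ((Fin n → NilT p) × (Fin j → Fin b × (Fin (7 * b - 1) → NilT p))) : ℝ))
      (g := fun _ => j * ((1024 : ℝ) / p) ^ b + (p : ℝ) ^ (2 * k) / (p : ℝ) ^ (I * b * j)) (by
        rw [← sum_div, hsum, div_le_iff₀ hα, sum_const, card_univ, Fintype.card_fun,
          Fintype.card_fin, nsmul_eq_mul]
        refine (sum_le_sum fun a _ => hM a).trans ?_
        rw [sum_add_distrib, sum_const, card_univ, nsmul_eq_mul, ← mul_sum]
        have h1 := mul_le_mul_of_nonneg_left hbad'
          (show (0 : ℝ) ≤ (Fintype.card (SL2 F) : ℝ) ^ j by positivity)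
        push_cast
        linarith)
    exact ⟨g, hg⟩
  obtain ⟨g, hg⟩ := key
  refine ⟨g, ?_⟩
  have h1 := hTVL F L ((Fin n → NilT p) × (Fin j → Fin b × (Fin (7 * b - 1) → NilT p)))
    (fun a => wl x g a)
  have h2 := hQP p F x n (Fin j → Fin b × (Fin (7 * b - 1) → NilT p))
    (fun w => (List.ofFn (fun i => win x (g i) (w i))).flatten.prod)
  have h3 : ∀ a : (Fin n → NilT p) × (Fin j → Fin b × (Fin (7 * b - 1) → NilT p)),
      (wl x g a).prod = pw x (List.ofFn a.1) *
        (List.ofFn (fun i => win x (g i) (a.2 i))).flatten.prod := by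
    intro a
    unfold wl pw
    rw [List.prod_append]
  simp only [h3] at h1
  linarith

end Pool.Agent.Y960.CE
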